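import Mathlib

/-!
# The return map of the heptagon billiard has no finite invariant set

`Step x y x' y'` is the five-branch piecewise affine area preserving map of the open unit square
(first return map to the section `side 5 x side 0`), given by open pieces.
`no_finite` : there is no nonempty finite set of points in which every point has a successor.
The proof is by renormalisation: the map `Phi` (inverse `PsiX, PsiY` below) conjugates the map to
an induced map on a smaller region.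
-/

set_option autoImplicit false

namespace Pool.Agent.SB46

/-- one step of the return map -/
def Step (x y x' y' : ℝ) : Prop :=
  (1/2 < x ∧ x < 1 ∧ 0 < y ∧ y < 1/2 ∧ x' = x/2 + 1/2 ∧ y' = 2*y) ∨
  (1/4 < x ∧ x < 1/2 ∧ 0 < y ∧ y < 1 ∧ x' = 1 - x ∧ y' = 1 - y) ∨
  (1/2 < x ∧ x < 3/4 ∧ 1/2 < y ∧ y < 1 ∧ x' = 3/4 - x ∧ y' = 1 - y) ∨
  (0 < x ∧ x < 1/4 ∧ 0 < y ∧ y < 1 ∧ x' = 1/2 - y/4 ∧ y' = 4*x) ∨
  (3/4 < x ∧ x < 1 ∧ 1/2 < y ∧ y < 1 ∧ x' = x - 3/4 ∧ y' = y)

theorem step_lt {x y x' y' : ℝ} (h : Step x y x' y') (hx : x < 1/4) :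
    0 < x ∧ 0 < y ∧ y < 1 ∧ x' = 1/2 - y/4 ∧ y' = 4*x := by
  rcases h with h | h | h | h | h
  · linarith [h.1]
  · linarith [h.1]
  · linarith [h.1]
  · exact ⟨h.1, h.2.2.1, h.2.2.2.1, h.2.2.2.2.1, h.2.2.2.2.2⟩
  · linarith [h.1]

theorem step_mid {x y x' y' : ℝ} (h : Step x y x' y') (hx : 1/4 ≤ x) (hx' : x ≤ 1/2) :
    1/4 < x ∧ x < 1/2 ∧ 0 < y ∧ y < 1 ∧ x' = 1 - x ∧ y' = 1 - y := by
  rcases h with h | h | h | h | h
  · linarith [h.1]
  · exact h
  · linarith [h.1]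
  · linarith [h.2.1]
  · linarith [h.1]

theorem step_hi {x y x' y' : ℝ} (h : Step x y x' y') (hx : 1/2 < x) (hy : 1/2 ≤ y) :
    (x < 3/4 ∧ 1/2 < y ∧ y < 1 ∧ x' = 3/4 - x ∧ y' = 1 - y) ∨
    (3/4 < x ∧ x < 1 ∧ 1/2 < y ∧ y < 1 ∧ x' = x - 3/4 ∧ y' = y) := by
  rcases h with h | h | h | h | h
  · linarith [h.2.2.2.1]
  · linarith [h.2.1]
  · exact Or.inl h.2
  · linarith [h.2.1]
  · exact Or.inr h

theorem step_lo {x y x' y' : ℝ} (h : Step x y x' y') (hx : 1/2 < x) (hy : y ≤ 1/2) :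
    x < 1 ∧ 0 < y ∧ y < 1/2 ∧ x' = x/2 + 1/2 ∧ y' = 2*y := by
  rcases h with h | h | h | h | h
  · exact h.2
  · linarith [h.2.1]
  · linarith [h.2.2.1]
  · linarith [h.2.1]
  · linarith [h.2.2.1]

/-- the image of the renormalisation -/
def InIm (x y : ℝ) : Prop :=
  (1/8 < x ∧ x < 1/4) ∨ (1/4 < x ∧ x < 1/2 ∧ 1/2 < y) ∨ (3/4 < x ∧ x < 1)

/-- first coordinate of the inverse of the renormalisation -/
noncomputable def PsiX (x : ℝ) : ℝ := if x < 1/4 then 2*x - 1/4 else if x < 1/2 then x else 2*x - 1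

/-- second coordinate of the inverse of the renormalisation -/
noncomputable def PsiY (x y : ℝ) : ℝ := if x < 1/4 then y else if x < 1/2 then 2*y - 1 else y

/-- every point of the set has a successor in the set -/
def Closed (A : Finset (ℝ × ℝ)) : Prop :=
  ∀ x y : ℝ, (x, y) ∈ A → ∃ x' y' : ℝ, (x', y') ∈ A ∧ Step x y x' y'

theorem g00 {A : Finset (ℝ × ℝ)} (hA : Closed A) {x y : ℝ} (hp : (x, y) ∈ A)
    (hx : x < 1/8) : 0 < x ∧ 0 < y ∧ y < 1 ∧ (1/4 - y/4, 4*x) ∈ A := by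
  obtain ⟨x1, y1, h1, s1⟩ := hA _ _ hp
  obtain ⟨h0, hy0, hy1, rfl, rfl⟩ := step_lt s1 (by linarith)
  obtain ⟨x2, y2, h2, s2⟩ := hA _ _ h1
  obtain ⟨-, -, -, -, rfl, rfl⟩ := step_mid s2 (by linarith) (by linarith)
  obtain ⟨x3, y3, h3, s3⟩ := hA _ _ h2
  rcases step_hi s3 (by linarith) (by linarith) with ⟨-, -, -, rfl, rfl⟩ | ⟨h, -⟩
  · refine ⟨h0, hy0, hy1, ?_⟩
    convert h3 using 2 <;> ring
  · linarith

theorem no_eighth {A : Finset (ℝ × ℝ)} (hA : Closed A) {y : ℝ} (hp : (1/8, y) ∈ A) : False := by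
  obtain ⟨x1, y1, h1, s1⟩ := hA _ _ hp
  obtain ⟨-, hy0, hy1, rfl, rfl⟩ := step_lt s1 (by norm_num)
  obtain ⟨x2, y2, h2, s2⟩ := hA _ _ h1
  obtain ⟨-, -, -, -, rfl, rfl⟩ := step_mid s2 (by linarith) (by linarith)
  obtain ⟨x3, y3, h3, s3⟩ := hA _ _ h2
  obtain ⟨-, -, h, -⟩ := step_lo s3 (by linarith) (by linarith)
  linarith

theorem visit_lt {A : Finset (ℝ × ℝ)} (hA : Closed A) {x y : ℝ} (hp : (x, y) ∈ A)
    (hx : x < 1/4) : ∃ x' y' : ℝ, (x', y') ∈ A ∧ InIm x' y' := by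
  rcases lt_trichotomy x (1/8) with h | h | h
  · obtain ⟨h0, hy0, hy1, h1⟩ := g00 hA hp h
    rcases lt_trichotomy y (1/2) with hy | hy | hy
    · exact ⟨_, _, h1, Or.inl ⟨by linarith, by linarith⟩⟩
    · exfalso
      apply no_eighth hA (y := 4*x)
      convert h1 using 2
      rw [hy]; norm_num
    · obtain ⟨-, -, -, h2⟩ := g00 hA h1 (by linarith)
      exact ⟨_, _, h2, Or.inl ⟨by linarith, by linarith⟩⟩
  · subst h
    exact (no_eighth hA hp).elim
  · exact ⟨x, y, hp, Or.inl ⟨h, hx⟩⟩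

theorem visit {A : Finset (ℝ × ℝ)} (hA : Closed A) {x y : ℝ} (hp : (x, y) ∈ A) :
    ∃ x' y' : ℝ, (x', y') ∈ A ∧ InIm x' y' := by
  rcases lt_or_ge x (1/4) with hx | hx
  · exact visit_lt hA hp hx
  rcases le_or_gt x (1/2) with hx' | hx'
  · obtain ⟨x1, y1, h1, s1⟩ := hA _ _ hp
    obtain ⟨ha, hb, hy0, hy1, rfl, rfl⟩ := step_mid s1 hx hx'
    rcases le_or_gt y (1/2) with hy | hy
    · obtain ⟨x2, y2, h2, s2⟩ := hA _ _ h1
      rcases step_hi s2 (by linarith) (by linarith) with ⟨-, -, -, rfl, rfl⟩ | ⟨h, -⟩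
      · exact visit_lt hA h2 (by linarith)
      · linarith
    · exact ⟨x, y, hp, Or.inr (Or.inl ⟨ha, hb, hy⟩)⟩
  · obtain ⟨x1, y1, h1, s1⟩ := hA _ _ hp
    rcases le_or_gt y (1/2) with hy | hy
    · obtain ⟨-, -, -, rfl, rfl⟩ := step_lo s1 hx' hy
      refine ⟨_, _, h1, Or.inr (Or.inr ⟨by linarith, ?_⟩)⟩
      obtain ⟨x2, y2, h2, s2⟩ := hA _ _ h1
      rcases s2 with h | h | h | h | h
      · exact h.2.1
      · linarith [h.2.1]
      · linarith [h.2.1]
      · linarith [h.2.1]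
      · exact h.2.1
    · rcases step_hi s1 hx' hy.le with ⟨h34, -, -, rfl, rfl⟩ | ⟨h34, hx1, -⟩
      · exact visit_lt hA h1 (by linarith)
      · exact ⟨x, y, hp, Or.inr (Or.inr ⟨h34, hx1⟩)⟩

theorem not_all {A : Finset (ℝ × ℝ)} (hA : Closed A) (hne : A.Nonempty) :
    ∃ p ∈ A, ¬ InIm p.1 p.2 := by
  by_contra hcon
  push Not at hcon
  -- no point with x < 1/2
  have hmid : ∀ x y : ℝ, (x, y) ∈ A → 1/4 ≤ x → x ≤ 1/2 → False := by
    intro x y hp ha hb
    obtain ⟨x1, y1, h1, s1⟩ := hA _ _ hp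
    obtain ⟨ha, hb, hy0, hy1, rfl, rfl⟩ := step_mid s1 ha hb
    rcases hcon _ h1 with h | h | h
    · linarith [h.2]
    · linarith [h.2.1]
    · linarith [h.1]
  have hlt : ∀ x y : ℝ, (x, y) ∈ A → x < 1/4 → False := by
    intro x y hp ha
    obtain ⟨x1, y1, h1, s1⟩ := hA _ _ hp
    obtain ⟨h0, hy0, hy1, rfl, rfl⟩ := step_lt s1 ha
    exact hmid _ _ h1 (by linarith) (by linarith)
  obtain ⟨p, hp, hmax⟩ := A.exists_max_image (fun p => p.2) hne
  obtain ⟨x, y⟩ := p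
  have hx : 1/2 < x := by
    by_contra hx
    rcases lt_or_ge x (1/4) with h | h
    · exact hlt _ _ hp h
    · exact hmid _ _ hp h (not_lt.1 hx)
  obtain ⟨x1, y1, h1, s1⟩ := hA _ _ hp
  rcases le_or_gt y (1/2) with hy | hy
  · obtain ⟨-, h0, -, rfl, rfl⟩ := step_lo s1 hx hy
    have := hmax _ h1
    simp only at this
    linarith
  · rcases step_hi s1 hx hy.le with ⟨h34, -, -, rfl, rfl⟩ | ⟨h34, hx1, -, -, rfl, rfl⟩
    · exact hlt _ _ h1 (by linarith)
    · exact hlt _ _ h1 (by linarith)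

theorem renorm {A : Finset (ℝ × ℝ)} (hA : Closed A) {x y : ℝ} (hp : (x, y) ∈ A)
    (him : InIm x y) : ∃ x' y' : ℝ, (x', y') ∈ A ∧ InIm x' y' ∧
      Step (PsiX x) (PsiY x y) (PsiX x') (PsiY x' y') := by
  rcases him with ⟨ha, hb⟩ | ⟨ha, hb, hy⟩ | ⟨ha, hb⟩
  · obtain ⟨x1, y1, h1, s1⟩ := hA _ _ hp
    obtain ⟨h0, hy0, hy1, rfl, rfl⟩ := step_lt s1 hb
    refine ⟨_, _, h1, Or.inr (Or.inl ⟨by linarith, by linarith, by linarith⟩), ?_⟩
    have e1 : PsiX x = 2*x - 1/4 := by rw [PsiX, if_pos hb]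
    have e2 : PsiY x y = y := by rw [PsiY, if_pos hb]
    have e3 : PsiX (1/2 - y/4) = 1/2 - y/4 := by
      rw [PsiX, if_neg (by linarith), if_pos (by linarith)]
    have e4 : PsiY (1/2 - y/4) (4*x) = 2*(4*x) - 1 := by
      rw [PsiY, if_neg (by linarith), if_pos (by linarith)]
    rw [e1, e2, e3, e4]
    exact Or.inr (Or.inr (Or.inr (Or.inl
      ⟨by linarith, by linarith, hy0, hy1, rfl, by ring⟩)))
  · obtain ⟨x1, y1, h1, s1⟩ := hA _ _ hp
    obtain ⟨-, -, hy0, hy1, rfl, rfl⟩ := step_mid s1 ha.le hb.le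
    obtain ⟨x2, y2, h2, s2⟩ := hA _ _ h1
    obtain ⟨-, -, -, rfl, rfl⟩ := step_lo s2 (by linarith) (by linarith)
    refine ⟨_, _, h2, Or.inr (Or.inr ⟨by linarith, by linarith⟩), ?_⟩
    have e1 : PsiX x = x := by rw [PsiX, if_neg (by linarith), if_pos hb]
    have e2 : PsiY x y = 2*y - 1 := by rw [PsiY, if_neg (by linarith), if_pos hb]
    have e3 : PsiX ((1-x)/2 + 1/2) = 2*((1-x)/2 + 1/2) - 1 := by
      rw [PsiX, if_neg (by linarith), if_neg (by linarith)]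
    have e4 : PsiY ((1-x)/2 + 1/2) (2*(1-y)) = 2*(1-y) := by
      rw [PsiY, if_neg (by linarith), if_neg (by linarith)]
    rw [e1, e2, e3, e4]
    exact Or.inr (Or.inl ⟨ha, hb, by linarith, by linarith, by ring, by ring⟩)
  · have e1 : PsiX x = 2*x - 1 := by rw [PsiX, if_neg (by linarith), if_neg (by linarith)]
    have e2 : PsiY x y = y := by rw [PsiY, if_neg (by linarith), if_neg (by linarith)]
    obtain ⟨x1, y1, h1, s1⟩ := hA _ _ hp
    rcases le_or_gt y (1/2) with hy | hy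
    · obtain ⟨-, hy0, hy1, rfl, rfl⟩ := step_lo s1 (by linarith) hy
      refine ⟨_, _, h1, Or.inr (Or.inr ⟨by linarith, by linarith⟩), ?_⟩
      have e3 : PsiX (x/2 + 1/2) = 2*(x/2 + 1/2) - 1 := by
        rw [PsiX, if_neg (by linarith), if_neg (by linarith)]
      have e4 : PsiY (x/2 + 1/2) (2*y) = 2*y := by
        rw [PsiY, if_neg (by linarith), if_neg (by linarith)]
      rw [e1, e2, e3, e4]
      exact Or.inl ⟨by linarith, by linarith, hy0, hy1, by ring, rfl⟩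
    · rcases step_hi s1 (by linarith) hy.le with ⟨h34, -, -, rfl, rfl⟩ | ⟨-, -, -, hy1, rfl, rfl⟩
      · linarith
      rcases lt_trichotomy x (7/8) with h | h | h
      · obtain ⟨-, -, -, h2⟩ := g00 hA h1 (by linarith)
        obtain ⟨-, -, -, h3⟩ := g00 hA h2 (by linarith)
        refine ⟨_, _, h3, Or.inl ⟨by linarith, by linarith⟩, ?_⟩
        have e3 : PsiX (1/4 - 4*(x-3/4)/4) = 2*(1/4 - 4*(x-3/4)/4) - 1/4 := by
          rw [PsiX, if_pos (by linarith)]
        have e4 : PsiY (1/4 - 4*(x-3/4)/4) (4*(1/4 - y1/4)) = 4*(1/4 - y1/4) := by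
          rw [PsiY, if_pos (by linarith)]
        rw [e1, e2, e3, e4]
        exact Or.inr (Or.inr (Or.inl ⟨by linarith, by linarith, hy, hy1, by ring, by ring⟩))
      · subst h
        exfalso
        apply no_eighth hA (y := y1)
        convert h1 using 2
        norm_num
      · refine ⟨_, _, h1, Or.inl ⟨by linarith, by linarith⟩, ?_⟩
        have e3 : PsiX (x - 3/4) = 2*(x-3/4) - 1/4 := by
          rw [PsiX, if_pos (by linarith)]
        have e4 : PsiY (x - 3/4) y1 = y1 := by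
          rw [PsiY, if_pos (by linarith)]
        rw [e1, e2, e3, e4]
        exact Or.inr (Or.inr (Or.inr (Or.inr ⟨by linarith, by linarith, hy, hy1, by ring, rfl⟩)))

/-- there is no nonempty finite set of points in which every point has a successor -/
theorem no_finite : ∀ A : Finset (ℝ × ℝ), A.Nonempty → ¬ Closed A := by
  intro A
  induction hn : A.card using Nat.strong_induction_on generalizing A with
  | _ n ih =>
    intro hne hA
    classical
    set B : Finset (ℝ × ℝ) :=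
      (A.filter (fun p => InIm p.1 p.2)).image (fun p => (PsiX p.1, PsiY p.1 p.2)) with hB
    have hcard : B.card < n := by
      calc B.card ≤ (A.filter (fun p => InIm p.1 p.2)).card := Finset.card_image_le
        _ < A.card := by
            obtain ⟨p, hp, hq⟩ := not_all hA hne
            exact Finset.card_lt_card (Finset.filter_ssubset.2 ⟨p, hp, hq⟩)
        _ = n := hn
    have hBne : B.Nonempty := by
      obtain ⟨⟨x, y⟩, hp⟩ := hne
      obtain ⟨x', y', h, him⟩ := visit hA hp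
      exact ⟨_, Finset.mem_image_of_mem _ (Finset.mem_filter.2 ⟨h, him⟩)⟩
    refine ih B.card hcard B rfl hBne ?_
    intro u v huv
    obtain ⟨⟨x, y⟩, hxy, he⟩ := Finset.mem_image.1 huv
    obtain ⟨hmem, him⟩ := Finset.mem_filter.1 hxy
    obtain ⟨x', y', h', him', hs⟩ := renorm hA hmem him
    simp only [Prod.mk.injEq] at he
    refine ⟨PsiX x', PsiY x' y', ?_, ?_⟩
    · exact Finset.mem_image_of_mem (fun p : ℝ × ℝ => (PsiX p.1, PsiY p.1 p.2))
        (Finset.mem_filter.2 ⟨h', him'⟩)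
    · rw [← he.1, ← he.2]
      exact hs

/-- no periodic orbit of the return map -/
theorem no_periodic (z : ℕ → ℝ × ℝ) (n : ℕ) (hn : 0 < n) (hper : ∀ i, z (i + n) = z i)
    (hs : ∀ i, Step (z i).1 (z i).2 (z (i+1)).1 (z (i+1)).2) : False := by
  classical
  refine no_finite ((Finset.range n).image z) ⟨z 0, Finset.mem_image_of_mem _
    (Finset.mem_range.2 hn)⟩ ?_
  intro x y hxy
  obtain ⟨i, hi, he⟩ := Finset.mem_image.1 hxy
  have hs' := hs i
  rw [he] at hs'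
  refine ⟨(z (i+1)).1, (z (i+1)).2, ?_, hs'⟩
  rcases Nat.lt_or_ge (i+1) n with h | h
  · exact Finset.mem_image_of_mem z (Finset.mem_range.2 h)
  · have hin : i + 1 = 0 + n := by
      have := Finset.mem_range.1 hi
      omega
    have : z (i+1) = z 0 := by rw [hin, hper]
    rw [Prod.mk.eta, this]
    exact Finset.mem_image_of_mem z (Finset.mem_range.2 hn)

end Pool.Agent.SB46
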